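import Pool.Agent.Work.MP_8ddad6_co.Final

namespace Pool.Agent.Results.MP_8ddad6_co.ThreeTradeRobustWeighted

open Pool.Agent.Work.MP_8ddad6_co

universe v

/-- Every complete simple game with exactly two type vectors of shift-minimal winning coalitions
(`r = 2`) that is 3-trade robust is weighted. -/
theorem result {N : Type v} [Fintype N] [DecidableEq N] (G : SGame N) (hc : G.Complete)
    (hr : G.numShiftMinimal = 2) (h3 : G.TradeRobust 3) : G.Weighted :=
  main_theorem G hc hr h3

end Pool.Agent.Results.MP_8ddad6_co.ThreeTradeRobustWeighted
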